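import Pool.Agent.Lib_helper34.BB.Defs
import Pool.Agent.Lib_helper34.BB.Lift

/-! BLOCK CNT and BLOCK PERM -/

open MeasureTheory ProbabilityTheory Set Metric Function
open scoped ENNReal NNReal

namespace Pool.Agent.BB

/-! ### permutations -/

/-- there is a permutation mapping one finite set onto another one of the same size -/
lemma cnt_exists_perm {M : ℕ} (U V : Finset (Fin M)) (h : U.card = V.card) :
    ∃ π : Equiv.Perm (Fin M), U.image π = V := by
  classical
  have hc : Fintype.card {x // x ∈ U} = Fintype.card {x // x ∈ V} := by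
    simp [h]
  let e : {x // x ∈ U} ≃ {x // x ∈ V} := Fintype.equivOfCardEq hc
  refine ⟨e.extendSubtype, ?_⟩
  ext x
  simp only [Finset.mem_image]
  constructor
  · rintro ⟨y, hy, rfl⟩
    exact e.extendSubtype_mem y hy
  · intro hx
    refine ⟨(e.symm ⟨x, hx⟩).1, (e.symm ⟨x, hx⟩).2, ?_⟩
    rw [e.extendSubtype_apply_of_mem _ (e.symm ⟨x, hx⟩).2]
    simp

lemma cnt_perm_image {M : ℕ} (U V V' : Finset (Fin M)) (hV : U.card = V.card)
    (hV' : U.card = V'.card) :
    ((Finset.univ : Finset (Equiv.Perm (Fin M))).filter (fun σ : Equiv.Perm (Fin M) => U.image σ = V)).card =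
    ((Finset.univ : Finset (Equiv.Perm (Fin M))).filter (fun σ : Equiv.Perm (Fin M) => U.image σ = V')).card := by
  classical
  obtain ⟨π, hπ⟩ := cnt_exists_perm V V' (hV.symm.trans hV')
  apply Finset.card_bij (fun σ _ => π * σ)
  · intro σ hσ
    simp only [Finset.mem_filter, Finset.mem_univ, true_and] at hσ ⊢
    rw [← hπ, ← hσ, Finset.image_image]
    rfl
  · intro a _ b _ hab
    exact mul_left_cancel hab
  · intro σ hσ
    simp only [Finset.mem_filter, Finset.mem_univ, true_and] at hσ
    refine ⟨π⁻¹ * σ, ?_, by simp⟩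
    simp only [Finset.mem_filter, Finset.mem_univ, true_and]
    have h1 : U.image (π⁻¹ * σ : Equiv.Perm (Fin M)) = (U.image σ).image (π⁻¹ : Equiv.Perm _) := by
      rw [Finset.image_image]
      rfl
    rw [h1, hσ, ← hπ, Finset.image_image]
    ext x
    simp

/-- PERM -/
theorem perm_proof (M u : ℕ) (U U' : Finset (Fin M)) (hU : U.card = u) (hU' : U'.card = u) :
    ((Finset.univ : Finset (Equiv.Perm (Fin M))).filter
      (fun σ => ∀ x ∈ U, σ x ∉ U')).card * M.choose u = M.factorial * (M - u).choose u := by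
  classical
  set N0 := ((Finset.univ : Finset (Equiv.Perm (Fin M))).filter
    (fun σ : Equiv.Perm (Fin M) => U.image σ = U)).card with hN0
  have hfib : ∀ V : Finset (Fin M), V.card = u →
      ((Finset.univ : Finset (Equiv.Perm (Fin M))).filter (fun σ : Equiv.Perm (Fin M) => U.image σ = V)).card = N0 := by
    intro V hV
    exact cnt_perm_image U V U (hU.trans hV.symm) rfl
  have hcardim : ∀ σ : Equiv.Perm (Fin M), (U.image σ).card = u := by
    intro σ
    rw [Finset.card_image_of_injective _ σ.injective, hU]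
  -- total
  have htot : M.factorial = M.choose u * N0 := by
    have h1 : (Finset.univ : Finset (Equiv.Perm (Fin M))).card =
        ∑ V ∈ Finset.powersetCard u (Finset.univ : Finset (Fin M)),
        ((Finset.univ : Finset (Equiv.Perm (Fin M))).filter (fun σ : Equiv.Perm (Fin M) => U.image σ = V)).card := by
      apply Finset.card_eq_sum_card_fiberwise
      intro σ _
      rw [Finset.mem_coe, Finset.mem_powersetCard]
      exact ⟨Finset.subset_univ _, hcardim σ⟩
    rw [Finset.card_univ, Fintype.card_perm, Fintype.card_fin] at h1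
    rw [h1, Finset.sum_congr rfl (fun V hV => hfib V (Finset.mem_powersetCard.mp hV).2),
      Finset.sum_const, Finset.card_powersetCard, Finset.card_univ, Fintype.card_fin, smul_eq_mul]
  have hpart : ((Finset.univ : Finset (Equiv.Perm (Fin M))).filter
      (fun σ => ∀ x ∈ U, σ x ∉ U')).card = (M - u).choose u * N0 := by
    have h1 : ((Finset.univ : Finset (Equiv.Perm (Fin M))).filter
        (fun σ => ∀ x ∈ U, σ x ∉ U')).card =
        ∑ V ∈ Finset.powersetCard u (U'ᶜ),
        (((Finset.univ : Finset (Equiv.Perm (Fin M))).filter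
        (fun σ => ∀ x ∈ U, σ x ∉ U')).filter (fun σ : Equiv.Perm (Fin M) => U.image σ = V)).card := by
      apply Finset.card_eq_sum_card_fiberwise
      intro σ hσ
      rw [Finset.mem_coe, Finset.mem_filter] at hσ
      rw [Finset.mem_coe, Finset.mem_powersetCard]
      refine ⟨?_, hcardim σ⟩
      intro y hy
      obtain ⟨x, hx, rfl⟩ := Finset.mem_image.mp hy
      rw [Finset.mem_compl]
      exact hσ.2 x hx
    rw [h1]
    have h2 : ∀ V ∈ Finset.powersetCard u (U'ᶜ),
        (((Finset.univ : Finset (Equiv.Perm (Fin M))).filter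
        (fun σ => ∀ x ∈ U, σ x ∉ U')).filter (fun σ : Equiv.Perm (Fin M) => U.image σ = V)).card = N0 := by
      intro V hV
      obtain ⟨hV1, hV2⟩ := Finset.mem_powersetCard.mp hV
      rw [← hfib V hV2]
      congr 1
      ext σ
      simp only [Finset.mem_filter, Finset.mem_univ, true_and, and_iff_right_iff_imp]
      intro hσ x hx
      have : σ x ∈ V := by rw [← hσ]; exact Finset.mem_image_of_mem _ hx
      exact Finset.mem_compl.mp (hV1 this)
    rw [Finset.sum_congr rfl h2, Finset.sum_const, Finset.card_powersetCard,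
      Finset.card_compl, Fintype.card_fin, hU', smul_eq_mul]
  rw [hpart, htot]
  ring

/-! ### the action -/

section act

variable {α Q : Type} [Group Q]

/-- left multiplication on the second coordinate -/
def cnt_mulHom (Q : Type) [Group Q] (M : ℕ) : Q →* Equiv.Perm (Fin M × Q) where
  toFun q := (Equiv.refl (Fin M)).prodCongr (Equiv.mulLeft q)
  map_one' := by
    ext x <;> simp
  map_mul' a b := by
    ext x <;> simp [mul_assoc]

lemma cnt_act_some (ψ : FreeGroup (Option α) →* Q) (M : ℕ) (τ : Q → Equiv.Perm (Fin M))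
    (w : FreeGroup α) (x : Fin M × Q) :
    liftAct ψ M τ (FreeGroup.map some w) x = (x.1, ψ (FreeGroup.map some w) * x.2) := by
  have h : (liftAct ψ M τ).comp (FreeGroup.map some) =
      (cnt_mulHom Q M).comp (ψ.comp (FreeGroup.map some)) := by
    apply FreeGroup.ext_hom
    intro a
    ext x <;> simp [liftAct, cnt_mulHom]
  exact congrArg (fun f : FreeGroup α →* Equiv.Perm (Fin M × Q) => f w x) h

lemma cnt_act_none (ψ : FreeGroup (Option α) →* Q) (M : ℕ) (τ : Q → Equiv.Perm (Fin M))
    (x : Fin M × Q) :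
    liftAct ψ M τ (FreeGroup.of none) x = (τ x.2 x.1, ψ (FreeGroup.of none) * x.2) := by
  simp [liftAct]

lemma cnt_map_ne {w w' : FreeGroup α} (h : w ≠ w') :
    FreeGroup.map (some : α → Option α) w ≠ FreeGroup.map some w' :=
  fun hh => h (FreeGroup.map_injective (Option.some_injective α) hh)

lemma cnt_none_ne (w w' : FreeGroup α) :
    FreeGroup.of none * FreeGroup.map (some : α → Option α) w ≠ FreeGroup.map some w' := by
  intro h
  let F : FreeGroup (Option α) →* Multiplicative ℤ :=
    FreeGroup.lift (fun o => match o with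
      | some _ => 1
      | none => Multiplicative.ofAdd 1)
  have h1 : ∀ w : FreeGroup α, F (FreeGroup.map some w) = 1 := by
    intro w
    have : F.comp (FreeGroup.map some) = (1 : FreeGroup α →* Multiplicative ℤ) := by
      apply FreeGroup.ext_hom
      intro a
      simp [F]
    exact congrArg (fun f : FreeGroup α →* Multiplicative ℤ => f w) this
  have h2 := congrArg F h
  rw [map_mul, h1, h1] at h2
  have h3 : F (FreeGroup.of none) = Multiplicative.ofAdd 1 := by simp [F]
  rw [h3, mul_one] at h2
  exact absurd h2 (by decide)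

end act

open Classical in
/-- the fibres of `W I` -/
noncomputable def cnt_UU {α Q : Type} [Group Q] {M : ℕ} (ψ : FreeGroup (Option α) →* Q)
    (W : Finset (FreeGroup α)) (J : Q → Finset (Fin M)) (q : Q) : Finset (Fin M) :=
  Finset.univ.filter (fun v => ∃ w ∈ W, v ∈ J ((ψ (FreeGroup.map some w))⁻¹ * q))

theorem count_proof {α Q : Type} [Group Q] [Fintype Q] [DecidableEq Q]
    (ψ : FreeGroup (Option α) →* Q) (W : Finset (FreeGroup α)) (M m : ℕ)
    (h : ∀ τ : Q → Equiv.Perm (Fin M), ∃ I : Finset (Fin M × Q),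
      (∀ q, (I.filter (fun x => x.2 = q)).card = m) ∧
      ∀ g ∈ VV W, ∀ g' ∈ VV W, g ≠ g' → ∀ x ∈ I, ∀ x' ∈ I,
        liftAct ψ M τ g x ≠ liftAct ψ M τ g' x') :
    W.card * m ≤ M ∧
    M.choose (W.card * m) ≤ M.choose m * (M - W.card * m).choose (W.card * m) := by
  classical
  set u := W.card * m with hu
  set b : FreeGroup (Option α) := FreeGroup.of none with hb
  -- for every τ there is a good J
  have key : ∀ τ : Q → Equiv.Perm (Fin M), ∃ J : Q → Finset (Fin M),
      (∀ q, (J q).card = m) ∧ (∀ q, (cnt_UU ψ W J q).card = u) ∧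
      ∀ q, ∀ v ∈ cnt_UU ψ W J q, τ q v ∉ cnt_UU ψ W J (ψ b * q) := by
    intro τ
    obtain ⟨I, hI1, hI2⟩ := h τ
    set J : Q → Finset (Fin M) := fun q => Finset.univ.filter (fun v => (v, q) ∈ I) with hJ
    have hmem : ∀ q v, v ∈ J q ↔ (v, q) ∈ I := by
      intro q v
      simp [hJ]
    have hJcard : ∀ q, (J q).card = m := by
      intro q
      rw [← hI1 q]
      symm
      apply Finset.card_bij (fun x _ => x.1)
      · intro x hx
        rw [Finset.mem_filter] at hx
        rw [hmem, ← hx.2]
        exact hx.1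
      · intro x hx y hy hxy
        rw [Finset.mem_filter] at hx hy
        exact Prod.ext hxy (hx.2.trans hy.2.symm)
      · intro v hv
        rw [hmem] at hv
        exact ⟨(v, q), Finset.mem_filter.mpr ⟨hv, rfl⟩, rfl⟩
    refine ⟨J, hJcard, ?_, ?_⟩
    · intro q
      have h1 : cnt_UU ψ W J q =
          W.biUnion (fun w => J ((ψ (FreeGroup.map some w))⁻¹ * q)) := by
        ext v
        simp [cnt_UU]
      rw [h1, Finset.card_biUnion]
      · simp [hJcard, hu]
      · intro w hw w' hw' hne
        rw [Function.onFun, Finset.disjoint_left]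
        intro v hv hv'
        rw [hmem] at hv hv'
        have := hI2 (FreeGroup.map some w) ⟨w, hw, Or.inl rfl⟩ (FreeGroup.map some w')
          ⟨w', hw', Or.inl rfl⟩ (cnt_map_ne hne) _ hv _ hv'
        apply this
        rw [cnt_act_some, cnt_act_some]
        simp
    · intro q v hv hv'
      simp only [cnt_UU, Finset.mem_filter, Finset.mem_univ, true_and] at hv hv'
      obtain ⟨w, hw, hv⟩ := hv
      obtain ⟨w', hw', hv'⟩ := hv'
      rw [hmem] at hv hv'
      have := hI2 (b * FreeGroup.map some w) ⟨w, hw, Or.inr rfl⟩ (FreeGroup.map some w')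
          ⟨w', hw', Or.inl rfl⟩ (cnt_none_ne w w') _ hv _ hv'
      apply this
      rw [cnt_act_some, map_mul, Equiv.Perm.mul_apply, cnt_act_some, cnt_act_none]
      simp [hb]
  have huM : u ≤ M := by
    obtain ⟨J, _, hJ2, _⟩ := key (fun _ => 1)
    rw [← hJ2 1]
    exact (Finset.card_le_univ _).trans (by simp)
  refine ⟨huM, ?_⟩
  -- counting
  set JJ : Finset (Q → Finset (Fin M)) :=
    (Fintype.piFinset (fun _ : Q => Finset.powersetCard m (Finset.univ : Finset (Fin M)))).filter
      (fun J => ∀ q, (cnt_UU ψ W J q).card = u) with hJJ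
  have hcov : (Finset.univ : Finset (Q → Equiv.Perm (Fin M))) ⊆
      JJ.biUnion (fun J => Fintype.piFinset (fun q => Finset.univ.filter
        (fun σ : Equiv.Perm (Fin M) => ∀ x ∈ cnt_UU ψ W J q, σ x ∉ cnt_UU ψ W J (ψ b * q)))) := by
    intro τ _
    obtain ⟨J, hJ1, hJ2, hJ3⟩ := key τ
    rw [Finset.mem_biUnion]
    refine ⟨J, ?_, ?_⟩
    · rw [hJJ, Finset.mem_filter, Fintype.mem_piFinset]
      exact ⟨fun q => Finset.mem_powersetCard.mpr ⟨Finset.subset_univ _, hJ1 q⟩, hJ2⟩
    · rw [Fintype.mem_piFinset]
      intro q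
      simp only [Finset.mem_filter, Finset.mem_univ, true_and]
      exact hJ3 q
  have h1 : M.factorial ^ Fintype.card Q * M.choose u ^ Fintype.card Q ≤
      (M.choose m) ^ Fintype.card Q * (M.factorial * (M - u).choose u) ^ Fintype.card Q := by
    have h2 := (Finset.card_le_card hcov).trans Finset.card_biUnion_le
    rw [Finset.card_univ, Fintype.card_fun, Fintype.card_perm, Fintype.card_fin] at h2
    have h3 : ∀ J ∈ JJ, (Fintype.piFinset (fun q => Finset.univ.filter
        (fun σ : Equiv.Perm (Fin M) => ∀ x ∈ cnt_UU ψ W J q, σ x ∉ cnt_UU ψ W J (ψ b * q)))).card *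
        M.choose u ^ Fintype.card Q = (M.factorial * (M - u).choose u) ^ Fintype.card Q := by
      intro J hJ
      rw [hJJ, Finset.mem_filter] at hJ
      rw [Fintype.card_piFinset, ← Finset.card_univ, ← Finset.prod_const, ← Finset.prod_const,
        ← Finset.prod_mul_distrib]
      apply Finset.prod_congr rfl
      intro q _
      exact perm_proof M u _ _ (hJ.2 q) (hJ.2 (ψ b * q))
    calc M.factorial ^ Fintype.card Q * M.choose u ^ Fintype.card Q
        ≤ (∑ J ∈ JJ, (Fintype.piFinset (fun q => Finset.univ.filter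
        (fun σ : Equiv.Perm (Fin M) => ∀ x ∈ cnt_UU ψ W J q,
          σ x ∉ cnt_UU ψ W J (ψ b * q)))).card) * M.choose u ^ Fintype.card Q :=
          Nat.mul_le_mul_right _ h2
      _ = ∑ J ∈ JJ, (M.factorial * (M - u).choose u) ^ Fintype.card Q := by
          rw [Finset.sum_mul]
          exact Finset.sum_congr rfl h3
      _ = JJ.card * (M.factorial * (M - u).choose u) ^ Fintype.card Q := by
          rw [Finset.sum_const, smul_eq_mul]
      _ ≤ _ := by
          apply Nat.mul_le_mul_right
          refine (Finset.card_filter_le _ _).trans (le_of_eq ?_)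
          rw [Fintype.card_piFinset]
          simp
  rw [← mul_pow, ← mul_pow] at h1
  have hQ : Fintype.card Q ≠ 0 := Fintype.card_ne_zero
  have h4 := (Nat.pow_le_pow_iff_left hQ).mp h1
  have h5 : M.factorial * M.choose u ≤ M.factorial * (M.choose m * (M - u).choose u) := by
    calc _ ≤ _ := h4
      _ = _ := by ring
  exact Nat.le_of_mul_le_mul_left h5 (Nat.factorial_pos M)

end Pool.Agent.BB
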