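import Pool.Agent.Lib_helper34.BB.Defs

/-! BLOCK CONC -/

open MeasureTheory ProbabilityTheory Set Metric Function
open scoped ENNReal NNReal

namespace Pool.Agent.BB

/-- law of a finite subfamily of an iid family with countable values -/
lemma conc_law {ι Ω' L : Type*} [MeasurableSpace Ω'] {μ : Measure Ω'} [IsProbabilityMeasure μ]
    [MeasurableSpace L] [Countable L] [MeasurableSingletonClass L] {Y : ι → Ω' → L}
    (hY : ∀ i, Measurable (Y i)) (hind : iIndepFun Y μ) {ν : Measure L}
    (hid : ∀ i, μ.map (Y i) = ν) {G : Type*} [Fintype G] {i : G → ι} (hi : Injective i)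
    (E : Set (G → L)) :
    μ {ω | (fun g => Y (i g) ω) ∈ E} = Measure.pi (fun _ : G => ν) E := by
  have h1 : iIndepFun (fun g => Y (i g)) μ := hind.precomp hi
  have h2 := (iIndepFun_iff_map_fun_eq_pi_map (fun g => (hY (i g)).aemeasurable)).1 h1
  have h3 : (fun g => μ.map (Y (i g))) = fun _ : G => ν := by
    funext g
    exact hid (i g)
  rw [h3] at h2
  rw [← h2, Measure.map_apply (measurable_pi_lambda _ fun g => hY (i g))
    E.to_countable.measurableSet]
  rfl

section prod

variable {L : Type} [MeasurableSpace L]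
  (ν : Measure L) [IsProbabilityMeasure ν] (V : Type) [Fintype V]

lemma conc_coord_indep : iIndepFun (fun (v : V) (ξ : V → L) => ξ v)
    (Measure.pi fun _ : V => ν) :=
  iIndepFun_pi (X := fun _ : V => (id : L → L)) (fun _ => aemeasurable_id)

lemma conc_coord_law (v : V) : (Measure.pi fun _ : V => ν).map (fun ξ : V → L => ξ v) = ν :=
  (measurePreserving_eval (fun _ : V => ν) v).map_eq

end prod

/-- the second moment -/
lemma conc_second {Ω' : Type*} [MeasurableSpace Ω'] (μ : Measure Ω') [IsProbabilityMeasure μ]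
    {N : Type*} [Fintype N] (A : N → Set Ω') (hA : ∀ v, MeasurableSet (A v)) (p : ℝ)
    (hp : ∀ v, μ.real (A v) = p) :
    Integrable (fun ω => (∑ v, ((A v).indicator (fun _ => (1 : ℝ)) ω - p)) ^ 2) μ ∧
    ∫ ω, (∑ v, ((A v).indicator (fun _ => (1 : ℝ)) ω - p)) ^ 2 ∂μ =
      ∑ v, ∑ v', (μ.real (A v ∩ A v') - p ^ 2) := by
  have hI : ∀ v, Integrable ((A v).indicator (fun _ => (1 : ℝ))) μ := fun v =>
    (integrable_const 1).indicator (hA v)
  have hI2 : ∀ v v', Integrable ((A v ∩ A v').indicator (fun _ => (1 : ℝ))) μ := fun v v' =>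
    (integrable_const 1).indicator ((hA v).inter (hA v'))
  have hexp : (fun ω => (∑ v, ((A v).indicator (fun _ => (1 : ℝ)) ω - p)) ^ 2) =
      fun ω => ∑ v, ∑ v', ((A v ∩ A v').indicator (fun _ => (1 : ℝ)) ω -
        p * (A v).indicator (fun _ => (1 : ℝ)) ω - p * (A v').indicator (fun _ => (1 : ℝ)) ω +
        p ^ 2) := by
    funext ω
    rw [sq, Finset.sum_mul_sum]
    apply Finset.sum_congr rfl
    intro v _
    apply Finset.sum_congr rfl
    intro v' _
    have : (A v ∩ A v').indicator (fun _ => (1 : ℝ)) ω =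
        (A v).indicator (fun _ => (1 : ℝ)) ω * (A v').indicator (fun _ => (1 : ℝ)) ω := by
      by_cases h1 : ω ∈ A v <;> by_cases h2 : ω ∈ A v' <;> simp [Set.indicator, h1, h2]
    rw [this]
    ring
  have hI3 : ∀ v v', Integrable (fun ω => (A v ∩ A v').indicator (fun _ => (1 : ℝ)) ω -
        p * (A v).indicator (fun _ => (1 : ℝ)) ω - p * (A v').indicator (fun _ => (1 : ℝ)) ω +
        p ^ 2) μ := fun v v' =>
    (((hI2 v v').sub ((hI v).const_mul p)).sub ((hI v').const_mul p)).add (integrable_const _)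
  rw [hexp]
  constructor
  · exact integrable_finsetSum _ fun v _ => integrable_finsetSum _ fun v' _ => hI3 v v'
  · rw [integral_finsetSum _ fun v _ => integrable_finsetSum _ fun v' _ => hI3 v v']
    apply Finset.sum_congr rfl
    intro v _
    rw [integral_finsetSum _ fun v' _ => hI3 v v']
    apply Finset.sum_congr rfl
    intro v' _
    have e1 : ∫ ω, ((A v ∩ A v').indicator (fun _ => (1 : ℝ)) ω -
        p * (A v).indicator (fun _ => (1 : ℝ)) ω - p * (A v').indicator (fun _ => (1 : ℝ)) ω +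
        p ^ 2) ∂μ = ∫ ω, ((A v ∩ A v').indicator (fun _ => (1 : ℝ)) ω -
        p * (A v).indicator (fun _ => (1 : ℝ)) ω - p * (A v').indicator (fun _ => (1 : ℝ)) ω) ∂μ +
        ∫ _ω, p ^ 2 ∂μ :=
      integral_add (((hI2 v v').sub ((hI v).const_mul p)).sub ((hI v').const_mul p))
        (integrable_const _)
    have e2 : ∫ ω, ((A v ∩ A v').indicator (fun _ => (1 : ℝ)) ω -
        p * (A v).indicator (fun _ => (1 : ℝ)) ω - p * (A v').indicator (fun _ => (1 : ℝ)) ω) ∂μ =
        ∫ ω, ((A v ∩ A v').indicator (fun _ => (1 : ℝ)) ω -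
        p * (A v).indicator (fun _ => (1 : ℝ)) ω) ∂μ -
        ∫ ω, p * (A v').indicator (fun _ => (1 : ℝ)) ω ∂μ :=
      integral_sub ((hI2 v v').sub ((hI v).const_mul p)) ((hI v').const_mul p)
    have e3 : ∫ ω, ((A v ∩ A v').indicator (fun _ => (1 : ℝ)) ω -
        p * (A v).indicator (fun _ => (1 : ℝ)) ω) ∂μ =
        ∫ ω, (A v ∩ A v').indicator (fun _ => (1 : ℝ)) ω ∂μ -
        ∫ ω, p * (A v).indicator (fun _ => (1 : ℝ)) ω ∂μ :=
      integral_sub (hI2 v v') ((hI v).const_mul p)
    rw [e1, e2, e3, integral_const_mul,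
      integral_const_mul, integral_indicator_const _ ((hA v).inter (hA v')),
      integral_indicator_const _ (hA v), integral_indicator_const _ (hA v'), hp, hp]
    simp
    ring

theorem conc_proof {Γ : Type} [Group Γ] [DecidableEq Γ] {Ω : Type*} [MeasurableSpace Ω]
    (P : Measure Ω) [IsProbabilityMeasure P] {L : Type} [MeasurableSpace L] [Countable L]
    [MeasurableSingletonClass L] (X : Γ → Ω → L) (hX : ∀ γ, Measurable (X γ))
    (hind : iIndepFun X P) (hid : ∀ γ, P.map (X γ) = P.map (X 1))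
    (K : Finset Γ) (T : Set (K → L)) (S : Finset Γ)
    (hconf : ∀ s ∈ S, P ({o | (fun h : K => X h o) ∈ T} ∩
      {o | (fun h : K => X (h * s) o) ∈ T}) = 0)
    (Q : Type) [Fintype Q] [DecidableEq Q] (ε : ℝ) (hε : 0 < ε) :
    ∃ M₀ : ℕ, ∀ M : ℕ, M₀ ≤ M → ∀ φ : Γ →* Equiv.Perm (Fin M × Q),
      (∀ x, InjOn (fun h : Γ => φ h x) ({h | h ∈ K} ∪ {h | ∃ k ∈ K, ∃ s ∈ S, h = k * s})) →
      ∃ I : Finset (Fin M × Q), (∀ x ∈ I, ∀ s ∈ S, φ s x ∉ I) ∧
        ∀ q, ((P {o | (fun h : K => X h o) ∈ T}).toReal - ε) * M ≤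
          ((I.filter (fun x => x.2 = q)).card : ℝ) := by
  classical
  set p : ℝ := (P {o | (fun h : K => X h o) ∈ T}).toReal with hp
  obtain ⟨M₁, hM₁⟩ := exists_nat_gt ((Fintype.card Q : ℝ) * (K.card : ℝ) ^ 2 / ε ^ 2)
  refine ⟨M₁ + 1, fun M hM φ hφ => ?_⟩
  have hMpos : (0 : ℝ) < M := by exact_mod_cast (by omega : 0 < M)
  have hMbig : (Fintype.card Q : ℝ) * (K.card : ℝ) ^ 2 < ε ^ 2 * M := by
    have h1 : (M₁ : ℝ) ≤ M := by exact_mod_cast (by omega : M₁ ≤ M)
    have h2 := hM₁.trans_le h1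
    rw [div_lt_iff₀ (by positivity)] at h2
    linarith
  set ν : Measure L := P.map (X 1) with hν
  have hνp : IsProbabilityMeasure ν := Measure.isProbabilityMeasure_map (hX 1).aemeasurable
  set PP : Measure (Fin M × Q → L) := Measure.pi (fun _ : Fin M × Q => ν) with hPP
  have hcm : ∀ v : Fin M × Q, Measurable (fun ξ : Fin M × Q → L => ξ v) := fun v =>
    measurable_pi_apply v
  have hci := conc_coord_indep ν (Fin M × Q)
  have hcl := conc_coord_law ν (Fin M × Q)
  -- the events
  set A : Fin M × Q → Set (Fin M × Q → L) := fun x => {ξ | (fun h : K => ξ (φ h x)) ∈ T} with hA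
  have hAm : ∀ x, MeasurableSet (A x) := fun x => by
    have : A x = (fun ξ : Fin M × Q → L => fun h : K => ξ (φ h x)) ⁻¹' T := rfl
    rw [this]
    exact (measurable_pi_lambda _ fun h => hcm _) T.to_countable.measurableSet
  have hinjK : ∀ x, Injective (fun h : K => φ h x) := by
    intro x a b hab
    exact Subtype.ext (hφ x (Or.inl a.2) (Or.inl b.2) hab)
  have hAp : ∀ x, PP.real (A x) = p := by
    intro x
    rw [hp, Measure.real]
    congr 1
    have h1 := conc_law hcm hci hcl (hinjK x) T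
    have h2 := conc_law hX hind hid (i := fun h : K => (h : Γ)) Subtype.val_injective T
    exact h1.trans h2.symm
  -- conflicts have probability zero
  have hAconf : ∀ x, ∀ s ∈ S, PP (A x ∩ A (φ s x)) = 0 := by
    intro x s hs
    set GG : Finset Γ := K ∪ K.image (fun k => k * s) with hGG
    have hK1 : ∀ h : K, (h : Γ) ∈ GG := fun h => Finset.mem_union_left _ h.2
    have hK2 : ∀ h : K, (h : Γ) * s ∈ GG := fun h =>
      Finset.mem_union_right _ (Finset.mem_image_of_mem _ h.2)
    have hinjG : Injective (fun g : GG => φ g x) := by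
      intro a b hab
      have hmem : ∀ g : GG, (g : Γ) ∈ ({h | h ∈ K} ∪ {h | ∃ k ∈ K, ∃ s ∈ S, h = k * s} : Set Γ) := by
        intro g
        rcases Finset.mem_union.mp g.2 with h | h
        · exact Or.inl h
        · obtain ⟨k, hk, hk'⟩ := Finset.mem_image.mp h
          exact Or.inr ⟨k, hk, s, hs, hk'.symm⟩
      exact Subtype.ext (hφ x (hmem a) (hmem b) hab)
    set E : Set (GG → L) := {η | (fun h : K => η ⟨h, hK1 h⟩) ∈ T ∧
      (fun h : K => η ⟨(h : Γ) * s, hK2 h⟩) ∈ T} with hE
    have h1 := conc_law hcm hci hcl hinjG E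
    have h2 := conc_law hX hind hid (i := fun h : GG => (h : Γ)) Subtype.val_injective E
    have h3 : {ξ : Fin M × Q → L | (fun g : GG => ξ (φ g x)) ∈ E} = A x ∩ A (φ s x) := by
      ext ξ
      have h4 : ∀ h : K, φ ((h : Γ) * s) x = φ h (φ s x) := by
        intro h
        rw [map_mul]
        rfl
      simp only [hE, hA, Set.mem_ofPred_eq, Set.mem_inter_iff, h4]
    have h5 : {o | (fun g : GG => X g o) ∈ E} = {o | (fun h : K => X h o) ∈ T} ∩
      {o | (fun h : K => X (h * s) o) ∈ T} := by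
      ext o
      simp only [hE, Set.mem_ofPred_eq, Set.mem_inter_iff]
    rw [← h3]
    have h6 : P {o | (fun g : GG => X g o) ∈ E} = 0 := by rw [h5]; exact hconf s hs
    exact h1.trans (h2.symm.trans h6)
  -- independence
  have hAind : ∀ x y, Disjoint (K.image (fun h => φ h x)) (K.image (fun h => φ h y)) →
      PP.real (A x ∩ A y) = p ^ 2 := by
    intro x y hxy
    have h1 := hci.indepFun_finset _ _ hxy hcm
    have h2 := h1.measure_inter_preimage_eq_mul
      {η | (fun h : K => η ⟨φ h x, Finset.mem_image_of_mem (fun h => φ h x) h.2⟩) ∈ T}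
      {η | (fun h : K => η ⟨φ h y, Finset.mem_image_of_mem (fun h => φ h y) h.2⟩) ∈ T}
      (Set.to_countable _).measurableSet (Set.to_countable _).measurableSet
    have h3 : PP (A x ∩ A y) = PP (A x) * PP (A y) := h2
    rw [Measure.real, h3, ENNReal.toReal_mul, sq]
    have h4 := hAp x
    have h5 := hAp y
    rw [Measure.real] at h4 h5
    rw [h4, h5]
  -- second moment in each fibre
  have hsec : ∀ q : Q, Integrable (fun ξ => (∑ v : Fin M,
      ((A (v, q)).indicator (fun _ => (1 : ℝ)) ξ - p)) ^ 2) PP ∧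
      ∫ ξ, (∑ v : Fin M, ((A (v, q)).indicator (fun _ => (1 : ℝ)) ξ - p)) ^ 2 ∂PP ≤
        M * (K.card : ℝ) ^ 2 := by
    intro q
    obtain ⟨h1, h2⟩ := conc_second PP (fun v : Fin M => A (v, q)) (fun v => hAm _) p
      (fun v => hAp _)
    refine ⟨h1, ?_⟩
    rw [h2]
    have h3 : ∀ v : Fin M, ∑ v' : Fin M, (PP.real (A (v, q) ∩ A (v', q)) - p ^ 2) ≤
        (K.card : ℝ) ^ 2 := by
      intro v
      set NB : Finset (Fin M) := (K ×ˢ K).image (fun kk => (φ (kk.2⁻¹ * kk.1) (v, q)).1) with hNB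
      have h4 : ∀ v' : Fin M, (PP.real (A (v, q) ∩ A (v', q)) - p ^ 2) ≤
          if v' ∈ NB then 1 else 0 := by
        intro v'
        split_ifs with h
        · have h5 : PP.real (A (v, q) ∩ A (v', q)) ≤ 1 := measureReal_le_one
          nlinarith [sq_nonneg p]
        · rw [hAind]
          · simp
          · rw [Finset.disjoint_left]
            intro z hz hz'
            obtain ⟨k, hk, hkz⟩ := Finset.mem_image.mp hz
            obtain ⟨k', hk', hkz'⟩ := Finset.mem_image.mp hz'
            apply h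
            rw [hNB, Finset.mem_image]
            refine ⟨(k, k'), Finset.mem_product.mpr ⟨hk, hk'⟩, ?_⟩
            have h6 : φ (k'⁻¹ * k) (v, q) = (v', q) := by
              rw [map_mul, Equiv.Perm.mul_apply, hkz, ← hkz', ← Equiv.Perm.mul_apply, ← map_mul,
                inv_mul_cancel, map_one]
              rfl
            exact congrArg Prod.fst h6
      calc ∑ v' : Fin M, (PP.real (A (v, q) ∩ A (v', q)) - p ^ 2)
          ≤ ∑ v' : Fin M, (if v' ∈ NB then (1 : ℝ) else 0) :=
            Finset.sum_le_sum fun v' _ => h4 v'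
        _ = NB.card := by
            rw [Finset.sum_ite_mem, Finset.univ_inter, Finset.sum_const, nsmul_eq_mul, mul_one]
        _ ≤ (K.card : ℝ) ^ 2 := by
            have h7 : NB.card ≤ K.card * K.card := by
              refine Finset.card_image_le.trans ?_
              rw [Finset.card_product]
            have h8 : ((NB.card : ℕ) : ℝ) ≤ ((K.card * K.card : ℕ) : ℝ) := by exact_mod_cast h7
            refine h8.trans (le_of_eq ?_)
            push_cast
            ring
    calc ∑ v : Fin M, ∑ v' : Fin M, (PP.real (A (v, q) ∩ A (v', q)) - p ^ 2)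
        ≤ ∑ v : Fin M, (K.card : ℝ) ^ 2 := Finset.sum_le_sum fun v _ => h3 v
      _ = M * (K.card : ℝ) ^ 2 := by simp
  -- contradiction
  by_contra hcon
  push Not at hcon
  have hae : ∀ᵐ ξ ∂PP, ∀ x, ∀ s ∈ S, ξ ∉ A x ∩ A (φ s x) := by
    rw [ae_all_iff]
    intro x
    exact (ae_ball_iff S.countable_toSet).mpr
      (fun s hs => measure_eq_zero_iff_ae_notMem.mp (hAconf x s hs))
  have hbig : ∀ᵐ ξ ∂PP, ε ^ 2 * (M : ℝ) ^ 2 ≤ ∑ q : Q, (∑ v : Fin M,
      ((A (v, q)).indicator (fun _ => (1 : ℝ)) ξ - p)) ^ 2 := by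
    filter_upwards [hae] with ξ hξ
    obtain ⟨q, hq⟩ := hcon (Finset.univ.filter (fun x => ξ ∈ A x)) (by
      intro x hx s hs hx'
      simp only [Finset.mem_filter, Finset.mem_univ, true_and] at hx hx'
      exact hξ x s hs ⟨hx, hx'⟩)
    have h1 : (((Finset.univ.filter (fun x => ξ ∈ A x)).filter (fun x => x.2 = q)).card : ℝ) =
        ∑ v : Fin M, (A (v, q)).indicator (fun _ => (1 : ℝ)) ξ := by
      have h2 : ((Finset.univ.filter (fun x => ξ ∈ A x)).filter
          (fun x : Fin M × Q => x.2 = q)).card =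
          ((Finset.univ : Finset (Fin M)).filter (fun v => ξ ∈ A (v, q))).card := by
        apply Finset.card_bij (fun x _ => x.1)
        · intro x hx
          simp only [Finset.mem_filter, Finset.mem_univ, true_and] at hx ⊢
          rw [← hx.2]
          exact hx.1
        · intro x hx y hy hxy
          simp only [Finset.mem_filter, Finset.mem_univ, true_and] at hx hy
          exact Prod.ext hxy (hx.2.trans hy.2.symm)
        · intro v hv
          simp only [Finset.mem_filter, Finset.mem_univ, true_and] at hv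
          exact ⟨(v, q), by simpa using hv, rfl⟩
      rw [h2, Finset.card_filter]
      push_cast
      apply Finset.sum_congr rfl
      intro v _
      simp [Set.indicator]
    rw [h1] at hq
    have h3 : ∑ v : Fin M, ((A (v, q)).indicator (fun _ => (1 : ℝ)) ξ - p) < -(ε * M) := by
      rw [Finset.sum_sub_distrib, Finset.sum_const, Finset.card_univ, Fintype.card_fin,
        nsmul_eq_mul]
      linarith
    have h4 : ε ^ 2 * (M : ℝ) ^ 2 ≤ (∑ v : Fin M,
        ((A (v, q)).indicator (fun _ => (1 : ℝ)) ξ - p)) ^ 2 := by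
      have h5 : 0 < ε * M := by positivity
      nlinarith
    exact h4.trans (Finset.single_le_sum (f := fun q => (∑ v : Fin M,
        ((A (v, q)).indicator (fun _ => (1 : ℝ)) ξ - p)) ^ 2) (fun q _ => sq_nonneg _)
        (Finset.mem_univ q))
  have hint : ε ^ 2 * (M : ℝ) ^ 2 ≤ (Fintype.card Q : ℝ) * (M * (K.card : ℝ) ^ 2) := by
    calc ε ^ 2 * (M : ℝ) ^ 2 = ∫ _ξ, ε ^ 2 * (M : ℝ) ^ 2 ∂PP := by simp
      _ ≤ ∫ ξ, ∑ q : Q, (∑ v : Fin M,
          ((A (v, q)).indicator (fun _ => (1 : ℝ)) ξ - p)) ^ 2 ∂PP :=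
          integral_mono_ae (integrable_const _)
            (integrable_finsetSum _ fun q _ => (hsec q).1) hbig
      _ = ∑ q : Q, ∫ ξ, (∑ v : Fin M,
          ((A (v, q)).indicator (fun _ => (1 : ℝ)) ξ - p)) ^ 2 ∂PP :=
          integral_finsetSum _ fun q _ => (hsec q).1
      _ ≤ ∑ q : Q, (M * (K.card : ℝ) ^ 2) := Finset.sum_le_sum fun q _ => (hsec q).2
      _ = (Fintype.card Q : ℝ) * (M * (K.card : ℝ) ^ 2) := by simp
  have : (Fintype.card Q : ℝ) * (K.card : ℝ) ^ 2 * M < ε ^ 2 * M * M :=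
    mul_lt_mul_of_pos_right hMbig hMpos
  nlinarith

end Pool.Agent.BB
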