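import Pool.Agent.Lib_helper34.BB.CELL

/-! BLOCK CHAIN -/

open MeasureTheory ProbabilityTheory Set Metric Function Filter
open scoped ENNReal NNReal

namespace Pool.Agent.BB

/-- paths of cells, starting next to `c` -/
def chain_path (nr : ℕ → ℕ → Prop) : (n : ℕ) → ℕ → (Fin n → ℕ) → Prop
  | 0, _, _ => True
  | n + 1, c, f => nr c (f 0) ∧ chain_path nr n (f 0) (Fin.tail f)

lemma chain_path_of (nr : ℕ → ℕ → Prop) (n : ℕ) : ∀ g : ℕ → ℕ,
    (∀ i < n, nr (g i) (g (i + 1))) → chain_path nr n (g 0) (fun i => g (i + 1)) := by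
  induction n with
  | zero => intro g _; trivial
  | succ n ih =>
    intro g hg
    refine ⟨hg 0 (by omega), ?_⟩
    exact ih (fun i => g (i + 1)) (fun i hi => hg (i + 1) (by omega))

open Classical in
/-- the weighted number of paths -/
lemma chain_sum (nr : ℕ → ℕ → Prop) (m : ℕ → ℝ≥0∞) (a : ℝ≥0∞)
    (h : ∀ c, ∑' i, (if nr c i then m i else 0) ≤ a) (n : ℕ) : ∀ c,
    ∑' f : Fin n → ℕ, (if chain_path nr n c f then ∏ i, m (f i) else 0) ≤ a ^ n := by
  induction n with
  | zero =>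
    intro c
    rw [tsum_fintype]
    simp [chain_path]
  | succ n ih =>
    intro c
    have e1 : ∑' f : Fin (n + 1) → ℕ, (if chain_path nr (n + 1) c f then ∏ i, m (f i) else 0) =
        ∑' x : ℕ × (Fin n → ℕ), ((if nr c x.1 then m x.1 else 0) *
          (if chain_path nr n x.1 x.2 then ∏ i, m (x.2 i) else 0)) := by
      rw [← (Fin.consEquiv (fun _ : Fin (n + 1) => ℕ)).tsum_eq]
      apply tsum_congr
      rintro ⟨b, f⟩
      have e2 : chain_path nr (n + 1) c (Fin.cons b f) ↔ nr c b ∧ chain_path nr n b f := by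
        simp [chain_path]
      have e3 : ∏ i : Fin (n + 1), m ((Fin.cons b f : Fin (n + 1) → ℕ) i) =
          m b * ∏ i, m (f i) := by
        rw [Fin.prod_univ_succ]
        simp
      change (if chain_path nr (n + 1) c (Fin.cons b f : Fin (n + 1) → ℕ) then
        ∏ i, m ((Fin.cons b f : Fin (n + 1) → ℕ) i) else 0) = (if nr c b then m b else 0) *
          (if chain_path nr n b f then ∏ i, m (f i) else 0)
      by_cases h1 : nr c b
      · by_cases h2 : chain_path nr n b f
        · rw [if_pos (e2.mpr ⟨h1, h2⟩), if_pos h1, if_pos h2]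
          exact e3
        · rw [if_neg (fun hh => h2 (e2.mp hh).2), if_neg h2, mul_zero]
      · rw [if_neg (fun hh => h1 (e2.mp hh).1), if_neg h1, zero_mul]
    rw [e1, ENNReal.tsum_prod (f := fun b (f : Fin n → ℕ) => ((if nr c b then m b else 0) *
          (if chain_path nr n b f then ∏ i, m (f i) else 0)))]
    calc ∑' b : ℕ, ∑' f : Fin n → ℕ, ((if nr c b then m b else 0) *
          (if chain_path nr n b f then ∏ i, m (f i) else 0))
        = ∑' b : ℕ, ((if nr c b then m b else 0) *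
          ∑' f : Fin n → ℕ, (if chain_path nr n b f then ∏ i, m (f i) else 0)) := by
          apply tsum_congr
          intro b
          rw [ENNReal.tsum_mul_left]
      _ ≤ ∑' b : ℕ, ((if nr c b then m b else 0) * a ^ n) :=
          ENNReal.tsum_le_tsum fun b => mul_le_mul_right (ih b) _
      _ = (∑' b : ℕ, (if nr c b then m b else 0)) * a ^ n := ENNReal.tsum_mul_right
      _ ≤ a * a ^ n := mul_le_mul_left (h c) _
      _ = a ^ (n + 1) := by rw [pow_succ, mul_comm]

set_option linter.unusedSectionVars false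

section Gen

variable {H : Type} [MetricSpace H] [ProperSpace H] [MeasurableSpace H] [BorelSpace H]

/-- infinite self-avoiding paths of nonempty cells do not exist -/
lemma chain_nopath {μ : Measure H} {Ω : Type*} [MeasurableSpace Ω]
    (P : Measure Ω) [IsProbabilityMeasure P] (X : Ω → Set H) (hX : IsPoisson P μ X)
    (c : ℕ → Set H) (hcm : ∀ i, MeasurableSet (c i)) (hcd : Pairwise (Disjoint on c))
    (hcf : ∀ i, μ (c i) ≠ ∞) (nr : ℕ → ℕ → Prop)
    (h : ∀ k, ∑' i, (open Classical in if nr k i then μ (c i) else 0) ≤ ENNReal.ofReal (1 / 4))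
    (k : ℕ) : ∀ᵐ ω ∂P, ¬ ∀ n : ℕ, ∃ f : Fin n → ℕ, Injective f ∧ chain_path nr n k f ∧
      ∀ i, cnt (X ω) (c (f i)) ≠ 0 := by
  classical
  have hbound : ∀ n : ℕ, P {ω | ∃ f : Fin n → ℕ, Injective f ∧ chain_path nr n k f ∧
      ∀ i, cnt (X ω) (c (f i)) ≠ 0} ≤ ENNReal.ofReal (1 / 4) ^ n := by
    intro n
    have h1 : {ω | ∃ f : Fin n → ℕ, Injective f ∧ chain_path nr n k f ∧
        ∀ i, cnt (X ω) (c (f i)) ≠ 0} ⊆ ⋃ f : Fin n → ℕ,
        {ω | Injective f ∧ chain_path nr n k f ∧ ∀ i, cnt (X ω) (c (f i)) ≠ 0} := by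
      rintro ω ⟨f, hf⟩
      exact mem_iUnion.mpr ⟨f, hf⟩
    refine (measure_mono h1).trans ((measure_iUnion_le _).trans
      (le_trans (ENNReal.tsum_le_tsum fun f => ?_)
        (chain_sum nr (fun i => μ (c i)) _ (fun k => h k) n k)))
    by_cases h2 : Injective f ∧ chain_path nr n k f
    · rw [if_pos h2.2]
      have h3 := hX.all_ne_zero_le (fun i => c (f i)) (fun i => hcm _)
        (fun i j hij => hcd (h2.1.ne hij)) (fun i => hcf _)
      refine (measure_mono ?_).trans h3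
      intro ω hω
      exact hω.2.2
    · have h3 : {ω | Injective f ∧ chain_path nr n k f ∧ ∀ i, cnt (X ω) (c (f i)) ≠ 0} = ∅ := by
        ext ω
        simp only [mem_ofPred_eq, mem_empty_iff_false, iff_false]
        intro hh
        exact h2 ⟨hh.1, hh.2.1⟩
      rw [h3, measure_empty]
      exact zero_le
  rw [ae_iff]
  simp only [not_not]
  apply le_antisymm _ zero_le
  have hlim : Tendsto (fun n : ℕ => ENNReal.ofReal (1 / 4) ^ n) atTop (nhds 0) := by
    apply ENNReal.tendsto_pow_atTop_nhds_zero_of_lt_one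
    rw [← ENNReal.ofReal_one]
    exact (ENNReal.ofReal_lt_ofReal_iff (by norm_num)).mpr (by norm_num)
  refine ge_of_tendsto' hlim fun n => ?_
  refine (measure_mono ?_).trans (hbound n)
  intro ω hω
  exact hω n

/-- the neighbouring cells of a cell have small total mass -/
lemma chain_nbr {μ : Measure H} (c : ℕ → Set H) (hcm : ∀ i, MeasurableSet (c i))
    (hcd : Pairwise (Disjoint on c)) (η l e a : ℝ) (b : ℝ≥0∞)
    (hη : ∀ i, ∀ x ∈ c i, ∀ y ∈ c i, dist x y ≤ η)
    (hann : ∀ x : H, μ {y | l - 2 * η ≤ dist x y ∧ dist x y ≤ l - 2 * η + e} ≤ b)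
    (ha : a + 2 * η ≤ l - 2 * η + e) (k : ℕ) :
    ∑' i, (open Classical in if (∃ u ∈ c k, ∃ v ∈ c i, l ≤ dist u v ∧ dist u v ≤ a)
      then μ (c i) else 0) ≤ b := by
  classical
  by_cases hk : (c k).Nonempty
  · obtain ⟨u0, hu0⟩ := hk
    have e1 : ∀ i, (if (∃ u ∈ c k, ∃ v ∈ c i, l ≤ dist u v ∧ dist u v ≤ a)
        then μ (c i) else 0) = μ (if (∃ u ∈ c k, ∃ v ∈ c i, l ≤ dist u v ∧ dist u v ≤ a)
        then c i else ∅) := by
      intro i
      split_ifs
      · rfl
      · simp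
    simp_rw [e1]
    rw [← measure_iUnion]
    · refine (measure_mono ?_).trans (hann u0)
      intro z hz
      obtain ⟨i, hi⟩ := mem_iUnion.mp hz
      split_ifs at hi with h1
      · obtain ⟨u, hu, v, hv, h2, h3⟩ := h1
        have h4 := hη k u0 hu0 u hu
        have h5 := hη i v hv z hi
        constructor
        · have h6 := dist_triangle4 u u0 z v
          rw [dist_comm u u0, dist_comm z v] at h6
          linarith
        · have h6 := dist_triangle4 u0 u v z
          linarith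
      · exact hi.elim
    · intro i j hij
      rw [Function.onFun]
      split_ifs
      · exact hcd hij
      · simp
      · simp
      · simp
    · intro i
      split_ifs
      · exact hcm i
      · exact MeasurableSet.empty
  · have e1 : ∀ i, (if (∃ u ∈ c k, ∃ v ∈ c i, l ≤ dist u v ∧ dist u v ≤ a)
        then μ (c i) else 0) = 0 := by
      intro i
      rw [if_neg]
      rintro ⟨u, hu, _⟩
      exact hk ⟨u, hu⟩
    simp_rw [e1]
    simp

/-- the deterministic part -/
lemma chain_det (C : Set H) (hlf : ∀ (x : H) (r : ℝ), (C ∩ closedBall x r).Finite)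
    (c : ℕ → Set H) (hcov : (⋃ i, c i) = univ) (η : ℝ)
    (hη : ∀ i, ∀ x ∈ c i, ∀ y ∈ c i, dist x y ≤ η)
    (hcl : ∀ (x : H) (r : ℝ), {i | (c i ∩ closedBall x r).Nonempty}.Finite) (l a : ℝ)
    (x y : ℕ → H) (hC : ∀ i, x i ∈ C ∧ y i ∈ C)
    (hstep : ∀ i, x (i + 1) = x i ∨ x (i + 1) = y i)
    (hdec : ∀ i, dist (x (i + 1)) (y (i + 1)) < dist (x i) (y i))
    (hd : ∀ i, l ≤ dist (x i) (y i) ∧ dist (x i) (y i) ≤ a) :
    ∃ k, ∀ n : ℕ, ∃ f : Fin n → ℕ, Injective f ∧
      chain_path (fun k i => ∃ u ∈ c k, ∃ v ∈ c i, l ≤ dist u v ∧ dist u v ≤ a) n k f ∧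
      ∀ i, cnt C (c (f i)) ≠ 0 := by
  classical
  have hidx : ∀ z : H, ∃ i, z ∈ c i := by
    intro z
    have : z ∈ ⋃ i, c i := by rw [hcov]; trivial
    exact mem_iUnion.mp this
  choose idx hidx using hidx
  set nr : ℕ → ℕ → Prop := fun k i => ∃ u ∈ c k, ∃ v ∈ c i, l ≤ dist u v ∧ dist u v ≤ a with hnr
  have hcne : ∀ z ∈ C, cnt C (c (idx z)) ≠ 0 := by
    intro z hz
    rw [cnt, Set.encard_ne_zero]
    exact ⟨z, hz, hidx z⟩
  let G : SimpleGraph ℕ :=
    { Adj := fun i k => i ≠ k ∧ nr i k ∧ cnt C (c i) ≠ 0 ∧ cnt C (c k) ≠ 0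
      symm := ⟨by
        rintro i k ⟨h1, ⟨u, hu, v, hv, h2, h3⟩, h4, h5⟩
        exact ⟨h1.symm, ⟨v, hv, u, hu, by rwa [dist_comm], by rwa [dist_comm]⟩, h5, h4⟩⟩
      loopless := ⟨fun i h => h.1 rfl⟩ }
  have hedge : ∀ i, G.Reachable (idx (x i)) (idx (y i)) := by
    intro i
    by_cases h : idx (x i) = idx (y i)
    · rw [h]
    · apply SimpleGraph.Adj.reachable
      exact ⟨h, ⟨x i, hidx _, y i, hidx _, (hd i).1, (hd i).2⟩, hcne _ (hC i).1, hcne _ (hC i).2⟩
  have hreach : ∀ i, G.Reachable (idx (x 0)) (idx (x i)) := by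
    intro i
    induction i with
    | zero => exact SimpleGraph.Reachable.refl _
    | succ i ih =>
      rcases hstep i with h | h
      · rw [h]; exact ih
      · rw [h]; exact ih.trans (hedge i)
  have hreachy : ∀ i, G.Reachable (idx (x 0)) (idx (y i)) := fun i => (hreach i).trans (hedge i)
  refine ⟨idx (x 0), fun n => ?_⟩
  -- a far cell
  set D : ℝ := a + η with hD
  set F : Set ℕ := {i | (c i ∩ closedBall (x 0) (n * D + η)).Nonempty} with hF
  have hFfin : F.Finite := hcl _ _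
  have hfar : ∃ k, G.Reachable (idx (x 0)) k ∧ k ∉ F := by
    by_contra hcon
    push Not at hcon
    -- finitely many points
    have hfinC : (C ∩ ⋃ k ∈ F, c k).Finite := by
      rw [inter_iUnion₂]
      apply hFfin.biUnion
      intro k _
      by_cases hk : (c k).Nonempty
      · obtain ⟨u, hu⟩ := hk
        refine (hlf u η).subset ?_
        rintro z ⟨hz1, hz2⟩
        refine ⟨hz1, ?_⟩
        rw [mem_closedBall]
        exact hη k z hz2 u hu
      · rw [not_nonempty_iff_eq_empty] at hk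
        rw [hk]
        simp
    have hmem : ∀ i, x i ∈ C ∩ ⋃ k ∈ F, c k := fun i =>
      ⟨(hC i).1, mem_iUnion₂.mpr ⟨idx (x i), hcon _ (hreach i), hidx _⟩⟩
    have hmemy : ∀ i, y i ∈ C ∩ ⋃ k ∈ F, c k := fun i =>
      ⟨(hC i).2, mem_iUnion₂.mpr ⟨idx (y i), hcon _ (hreachy i), hidx _⟩⟩
    have hanti : StrictAnti (fun i => dist (x i) (y i)) := strictAnti_nat_of_succ_lt hdec
    have hinj : Injective (fun i => (x i, y i)) := by
      intro i j hij
      apply hanti.injective
      have h1 : x i = x j := congrArg Prod.fst hij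
      have h2 : y i = y j := congrArg Prod.snd hij
      simp only [h1, h2]
    have hinf : (Set.range (fun i => (x i, y i))).Infinite := infinite_range_of_injective hinj
    apply hinf
    refine (hfinC.prod hfinC).subset ?_
    rintro _ ⟨i, rfl⟩
    exact ⟨hmem i, hmemy i⟩
  obtain ⟨k, hk1, hk2⟩ := hfar
  obtain ⟨p, hp⟩ := hk1.exists_isPath
  -- cell of the target is nonempty
  have hadj : ∀ i < p.length, G.Adj (p.getVert i) (p.getVert (i + 1)) := fun i hi =>
    p.adj_getVert_succ hi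
  have hdist : ∀ m ≤ p.length, ∀ z ∈ c (p.getVert m), dist (x 0) z ≤ m * D + η := by
    intro m
    induction m with
    | zero =>
      intro _ z hz
      rw [SimpleGraph.Walk.getVert_zero] at hz
      have := hη _ _ (hidx (x 0)) z hz
      simpa using this
    | succ m ih =>
      intro hm z hz
      obtain ⟨_, ⟨u, hu, v, hv, h1, h2⟩, _⟩ := hadj m (by omega)
      have h3 := ih (by omega) u hu
      have h4 := hη _ v hv z hz
      have h5 := dist_triangle4 (x 0) u v z
      push_cast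
      linarith
  have hlen : n < p.length := by
    by_contra hcon
    push Not at hcon
    have hkc : ∃ z, z ∈ c k := by
      rcases Nat.eq_zero_or_pos p.length with h0 | h0
      · have h1 := p.getVert_length
        rw [h0, SimpleGraph.Walk.getVert_zero] at h1
        exact ⟨x 0, h1 ▸ hidx (x 0)⟩
      · have h1 := hadj (p.length - 1) (by omega)
        rw [Nat.sub_add_cancel h0, p.getVert_length] at h1
        have h2 := h1.2.2.2
        rw [cnt, Set.encard_ne_zero] at h2
        obtain ⟨z, _, hz⟩ := h2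
        exact ⟨z, hz⟩
    obtain ⟨z, hz⟩ := hkc
    apply hk2
    refine ⟨z, hz, ?_⟩
    rw [mem_closedBall, dist_comm]
    have h1 := hdist p.length le_rfl z (by rw [p.getVert_length]; exact hz)
    refine h1.trans ?_
    have hD0 : 0 ≤ D := by
      have h2 := hd 0
      have h3 : 0 ≤ η := dist_nonneg.trans (hη _ _ (hidx (x 0)) _ (hidx (x 0)))
      have h4 : (0 : ℝ) ≤ dist (x 0) (y 0) := dist_nonneg
      linarith
    have h5 : (p.length : ℝ) ≤ n := by exact_mod_cast hcon
    nlinarith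
  refine ⟨fun i => p.getVert (i + 1), ?_, ?_, ?_⟩
  · intro i j hij
    have h1 := hp.getVert_injOn (show (i : ℕ) + 1 ∈ {m | m ≤ p.length} by
      show (i : ℕ) + 1 ≤ p.length
      omega) (show (j : ℕ) + 1 ∈ {m | m ≤ p.length} by
      show (j : ℕ) + 1 ≤ p.length
      omega) hij
    exact Fin.ext (by omega)
  · have h1 := chain_path_of nr n p.getVert (fun i hi => (hadj i (by omega)).2.1)
    rwa [SimpleGraph.Walk.getVert_zero] at h1
  · intro i
    exact (hadj i (by omega)).2.2.2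

theorem chain_proof {μ : Measure H} (hμ : Nice μ) {Ω : Type*} [MeasurableSpace Ω]
    (P : Measure Ω) [IsProbabilityMeasure P] (X : Ω → Set H) (hX : IsPoisson P μ X) :
    ∀ᵐ ω ∂P, ¬ ∃ x y : ℕ → H, (∀ i, x i ∈ X ω ∧ y i ∈ X ω ∧ x i ≠ y i) ∧
      (∀ i, (x (i + 1) = x i ∨ x (i + 1) = y i) ∧
      dist (x (i + 1)) (y (i + 1)) < dist (x i) (y i)) := by
  classical
  -- parameters
  have hann : ∀ L : ℕ, ∃ ε > 0, ∀ (x : H) (l : ℝ), l ≤ L + 1 →
      μ {y | l ≤ dist x y ∧ dist x y ≤ l + ε} ≤ ENNReal.ofReal (1 / 4) :=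
    fun L => hμ.ann (L + 1) (1 / 4) (by norm_num)
  choose ε hε hεann using hann
  have hcell : ∀ L : ℕ, ∃ c : ℕ → Set H, (∀ i, MeasurableSet (c i)) ∧
      Pairwise (Disjoint on c) ∧ (⋃ i, c i) = univ ∧
      (∀ i, ∀ x ∈ c i, ∀ y ∈ c i, dist x y ≤ ε L / 6) ∧
      ∀ (x : H) (r : ℝ), {i | (c i ∩ closedBall x r).Nonempty}.Finite :=
    fun L => cells_proof (ε L / 6) (by have := hε L; positivity)
  choose c hcm hcd hcov hcη hcl using hcell
  have hcf : ∀ L i, μ (c L i) ≠ ∞ := by
    intro L i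
    by_cases hk : (c L i).Nonempty
    · obtain ⟨u, hu⟩ := hk
      refine ne_top_of_le_ne_top (hμ.fin u (ε L / 6)).ne (measure_mono ?_)
      intro z hz
      rw [mem_closedBall]
      exact hcη L i z hz u hu
    · rw [not_nonempty_iff_eq_empty] at hk
      rw [hk]
      simp
  have hmain : ∀ L j k : ℕ, (j : ℝ) * (ε L / 6) ≤ L → ∀ᵐ ω ∂P, ¬ ∀ n : ℕ, ∃ f : Fin n → ℕ,
      Injective f ∧ chain_path (fun k i => ∃ u ∈ c L k, ∃ v ∈ c L i,
        (j : ℝ) * (ε L / 6) ≤ dist u v ∧ dist u v ≤ (j + 2) * (ε L / 6)) n k f ∧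
      ∀ i, cnt (X ω) (c L (f i)) ≠ 0 := by
    intro L j k hj
    apply chain_nopath P X hX (c L) (hcm L) (hcd L) (hcf L)
    intro k'
    apply chain_nbr (c L) (hcm L) (hcd L) (ε L / 6) ((j : ℝ) * (ε L / 6)) (ε L)
      ((j + 2) * (ε L / 6)) _ (hcη L)
    · intro x
      apply hεann L x
      have := hε L
      linarith
    · linarith
  have hall : ∀ᵐ ω ∂P, ∀ L j k : ℕ, (j : ℝ) * (ε L / 6) ≤ L → ¬ ∀ n : ℕ, ∃ f : Fin n → ℕ,
      Injective f ∧ chain_path (fun k i => ∃ u ∈ c L k, ∃ v ∈ c L i,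
        (j : ℝ) * (ε L / 6) ≤ dist u v ∧ dist u v ≤ (j + 2) * (ε L / 6)) n k f ∧
      ∀ i, cnt (X ω) (c L (f i)) ≠ 0 := by
    rw [ae_all_iff]
    intro L
    rw [ae_all_iff]
    intro j
    rw [ae_all_iff]
    intro k
    by_cases hj : (j : ℝ) * (ε L / 6) ≤ L
    · filter_upwards [hmain L j k hj] with ω hω _
      exact hω
    · exact Eventually.of_forall fun ω h => absurd h hj
  filter_upwards [hall, lf_proof hμ P X hX] with ω hω hlf
  rintro ⟨x, y, hxy, hst⟩
  have hanti : StrictAnti (fun i => dist (x i) (y i)) :=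
    strictAnti_nat_of_succ_lt fun i => (hst i).2
  have hbdd : BddBelow (Set.range (fun i => dist (x i) (y i))) :=
    ⟨0, by rintro _ ⟨i, rfl⟩; exact dist_nonneg⟩
  set l : ℝ := ⨅ i, dist (x i) (y i) with hl
  have hlle : ∀ i, l ≤ dist (x i) (y i) := fun i => ciInf_le hbdd i
  have hl0 : 0 ≤ l := le_ciInf fun i => dist_nonneg
  have hlim : Tendsto (fun i => dist (x i) (y i)) atTop (nhds l) :=
    tendsto_atTop_ciInf hanti.antitone hbdd
  set L : ℕ := ⌈dist (x 0) (y 0)⌉₊ with hL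
  have hLle : dist (x 0) (y 0) ≤ L := Nat.le_ceil _
  have he : 0 < ε L / 6 := by have := hε L; positivity
  set j : ℕ := ⌊l / (ε L / 6)⌋₊ with hj
  have hj1 : (j : ℝ) * (ε L / 6) ≤ l := by
    have := Nat.floor_le (div_nonneg hl0 he.le)
    rwa [← hj, le_div_iff₀ he] at this
  have hj2 : l < (j + 1) * (ε L / 6) := by
    have := Nat.lt_floor_add_one (l / (ε L / 6))
    rwa [← hj, div_lt_iff₀ he] at this
  have hev : ∀ᶠ i in atTop, dist (x i) (y i) < (j + 2) * (ε L / 6) :=
    hlim.eventually_lt_const (by nlinarith)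
  obtain ⟨i0, hi0⟩ := eventually_atTop.mp hev
  obtain ⟨k, hk⟩ := chain_det (X ω) hlf (c L) (hcov L) (ε L / 6) (hcη L) (hcl L)
    ((j : ℝ) * (ε L / 6)) ((j + 2) * (ε L / 6)) (fun i => x (i0 + i)) (fun i => y (i0 + i))
    (fun i => ⟨(hxy _).1, (hxy _).2.1⟩) (fun i => (hst (i0 + i)).1)
    (fun i => (hst (i0 + i)).2)
    (fun i => ⟨hj1.trans (hlle _), (hi0 (i0 + i) (by omega)).le⟩)
  exact hω L j k (hj1.trans ((hlle 0).trans hLle)) hk

end Gen

end Pool.Agent.BB
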